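import Pool.Agent.helper64.NQ.Spec

/-!
# Project nq (MP_baa4d7_al), row JTP: the sum over generating pairs is multiplicative
-/

set_option autoImplicit false

namespace Pool.Agent.NQ

open Pool.Agent.helper58.DC Pool.Agent.DI Pool.Agent.DR

lemma JTP_restrict {Q : Type} [Group Q] {ω : Q → Q → ℂˣ} (h : IsAlt ⊤ ω) (V : Subgroup Q) :
    IsAlt V ω :=
  { mul_left := fun x _ y _ z _ =>
      h.mul_left x (Subgroup.mem_top x) y (Subgroup.mem_top y) z (Subgroup.mem_top z)
    mul_right := fun x _ y _ z _ =>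
      h.mul_right x (Subgroup.mem_top x) y (Subgroup.mem_top y) z (Subgroup.mem_top z)
    self := fun x _ => h.self x (Subgroup.mem_top x) }

lemma JTP_bot {Q : Type} [Group Q] {ω : Q → Q → ℂˣ} (h : IsAlt ⊤ ω) :
    JQ (⊥ : Subgroup Q) ω = 1 := by
  have hset : {x : Q × Q | Subgroup.closure {x.1, x.2} = (⊥ : Subgroup Q)} = {(1, 1)} := by
    ext x
    simp only [Set.mem_singleton_iff]
    constructor
    · intro hx
      have hx' : Subgroup.closure {x.1, x.2} = (⊥ : Subgroup Q) := hx
      rw [Subgroup.closure_eq_bot_iff] at hx'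
      have h1 : x.1 = 1 := hx' (Set.mem_insert _ _)
      have h2 : x.2 = 1 := hx' (Set.mem_insert_of_mem _ rfl)
      exact Prod.ext h1 h2
    · rintro rfl
      show Subgroup.closure {(1 : Q), 1} = ⊥
      rw [Subgroup.closure_eq_bot_iff]
      intro y hy
      simp only [Set.mem_insert_iff, Set.mem_singleton_iff, or_self] at hy
      exact hy
  unfold JQ
  rw [hset, finsum_mem_singleton]
  show ((ω 1 1 : ℂˣ) : ℂ) = 1
  rw [h.self 1 (Subgroup.mem_top 1), Units.val_one]

theorem JTP (hTRF : TRF_stmt) (hJPR : JPR_stmt) : JTP_stmt := by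
  intro Q _ _ hc n hn hB ω hω S hS
  classical
  obtain ⟨-, hcard, hjoin⟩ := hTRF Q hc n hn hB
  induction S using Finset.induction_on with
  | empty =>
    rw [Finset.prod_empty, Finset.prod_empty]
    have h1 : tor Q hc 1 = ⊥ := by
      ext a
      rw [Subgroup.mem_bot]
      constructor
      · intro ha
        have ha' : a ^ 1 = 1 := ha
        rwa [pow_one] at ha'
      · rintro rfl
        show (1 : Q) ^ 1 = 1
        rw [pow_one]
    rw [h1]
    exact JTP_bot hω
  | @insert r S hr ih =>
    have hSn : S ⊆ n.primeFactors := (Finset.subset_insert r S).trans hS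
    have hprod : ∏ s ∈ insert r S, s ∣ n := by
      have h1 : ∏ s ∈ insert r S, s ∣ ∏ s ∈ n.primeFactors, s :=
        Finset.prod_dvd_prod_of_subset _ _ _ hS
      rwa [Nat.prod_primeFactors_of_squarefree hn] at h1
    rw [Finset.prod_insert hr] at hprod
    rw [Finset.prod_insert hr, Finset.prod_insert hr, ← hjoin r (∏ s ∈ S, s) hprod]
    have hrn : r ∣ n := (Dvd.intro _ rfl).trans hprod
    have hSd : ∏ s ∈ S, s ∣ n := (Dvd.intro_left _ rfl).trans hprod
    have hrp : r.Prime := Nat.prime_of_mem_primeFactors (hS (Finset.mem_insert_self r S))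
    have hcop : Nat.Coprime r (∏ s ∈ S, s) := by
      refine Nat.Coprime.prod_right fun s hs => ?_
      have hsp : s.Prime := Nat.prime_of_mem_primeFactors (hSn hs)
      rw [Nat.coprime_primes hrp hsp]
      rintro rfl
      exact hr hs
    rw [hJPR Q hc (tor Q hc r) (tor Q hc (∏ s ∈ S, s)) (by
      rw [hcard r hrn, hcard _ hSd]
      exact Nat.Coprime.pow 2 2 hcop) ω (JTP_restrict hω _), ih hSn]

end Pool.Agent.NQ
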